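import Pool.Agent.Lib.MP_305fdd_al.To.N.Uniq

/-!
# MP_305fdd_al, torsion: discreteness and cocompactness pass from a subgroup of finite index

`NRd.realise'`: Nielsen realisation: `Λ` is a discrete cocompact subgroup of `PSL_2(ℝ)`.
-/

set_option autoImplicit false

namespace Pool.Agent.ToN

open Matrix

section

variable {G : Type} [Group G]

/-- the image is discrete and the kernel is trivial -/
def Disc (R : G →* PSLR) : Prop := ∃ ε : ℝ, 0 < ε ∧ ∀ (g : G) (A : SLR), pr A = R g →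
  (∀ i j, |A.1 i j - (1 : Matrix (Fin 2) (Fin 2) ℝ) i j| < ε) → g = 1

/-- the image is cocompact -/
def Coc (R : G →* PSLR) : Prop := ∃ C : ℝ, ∀ h : SLR, ∃ (g : G) (A : SLR), pr A = R g ∧
  ∀ i j, |(A * h).1 i j| ≤ C

theorem Disc.inj {R : G →* PSLR} (h : Disc R) : Function.Injective R := by
  obtain ⟨ε, hε, h1⟩ := h
  rw [injective_iff_map_eq_one]
  intro g hg
  refine h1 g 1 (by rw [hg, map_one]) fun i j => ?_
  rw [one1, sub_self, abs_zero]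
  exact hε

theorem pr_surj (x : PSLR) : ∃ A : SLR, pr A = x := QuotientGroup.mk'_surjective _ x

/-- the distance to a nontrivial element of `PSL_2(ℝ)` -/
theorem exists_far {x : PSLR} (hx : x ≠ 1) : ∃ ε : ℝ, 0 < ε ∧ ∀ A : SLR, pr A = x →
    ¬ ∀ i j, |A.1 i j - (1 : Matrix (Fin 2) (Fin 2) ℝ) i j| < ε := by
  obtain ⟨B, hB⟩ := pr_surj x
  have h1 : ∀ M : Matrix (Fin 2) (Fin 2) ℝ, M ≠ 1 → ∃ ε : ℝ, 0 < ε ∧
      ¬ ∀ i j, |M i j - (1 : Matrix (Fin 2) (Fin 2) ℝ) i j| < ε := by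
    intro M hM
    obtain ⟨i, j, hij⟩ : ∃ i j, M i j ≠ (1 : Matrix (Fin 2) (Fin 2) ℝ) i j := by
      by_contra hc
      push Not at hc
      exact hM (Matrix.ext hc)
    refine ⟨|M i j - (1 : Matrix (Fin 2) (Fin 2) ℝ) i j|, abs_pos.2 (sub_ne_zero.2 hij), ?_⟩
    intro hc
    exact lt_irrefl _ (hc i j)
  have hne : ∀ A : SLR, PM A B → A.1 ≠ 1 := by
    intro A hA h0
    apply hx
    rw [← hB, ← (pr_eq_iff A B).2 hA]
    have : A = 1 := Subtype.ext h0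
    rw [this, map_one]
  obtain ⟨ε₁, he₁, k₁⟩ := h1 B.1 (hne B (Or.inl rfl))
  obtain ⟨ε₂, he₂, k₂⟩ := h1 (-B.1) (by
    intro h0
    have h2 := hne ⟨-B.1, by rw [Matrix.det_neg, B.2]; simp⟩ (Or.inr rfl)
    exact h2 h0)
  refine ⟨min ε₁ ε₂, lt_min he₁ he₂, fun A hA hc => ?_⟩
  rw [← hB, pr_eq_iff] at hA
  rcases hA with h2 | h2
  · rw [h2] at hc
    exact k₁ fun i j => (hc i j).trans_le (min_le_left _ _)
  · rw [h2] at hc
    exact k₂ fun i j => (hc i j).trans_le (min_le_right _ _)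

/-- products of elements near 1 -/
theorem exists_near (ε : ℝ) (hε : 0 < ε) : ∃ δ : ℝ, 0 < δ ∧ ∀ A B : SLR,
    (∀ i j, |A.1 i j - (1 : Matrix (Fin 2) (Fin 2) ℝ) i j| < δ) →
    (∀ i j, |B.1 i j - (1 : Matrix (Fin 2) (Fin 2) ℝ) i j| < δ) →
    ∀ i j, |(A⁻¹ * B).1 i j - (1 : Matrix (Fin 2) (Fin 2) ℝ) i j| < ε := by
  refine ⟨min 1 (ε / 8), lt_min one_pos (by positivity), fun A B hA hB => ?_⟩
  set δ := min 1 (ε / 8) with hδ
  have hδ0 : 0 < δ := lt_min one_pos (by positivity)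
  have h1 : δ ≤ 1 := min_le_left _ _
  have h2 : 8 * δ ≤ ε := by linarith [min_le_right 1 (ε / 8)]
  have key : ∀ p q r s : ℝ, |p| < δ → |q| < δ → |r| < δ → |s| < δ →
      |p * q + r * s + p + q| < 5 * δ ∧ |p * q + r * s + (p + q)| < 5 * δ ∧
      |p * q + r * s + p| < 5 * δ := by
    intro p q r s hp hq hr hs
    have e1 : |p * q| ≤ δ := by
      rw [abs_mul]
      calc |p| * |q| ≤ δ * 1 := mul_le_mul hp.le (hq.le.trans h1) (abs_nonneg _) hδ0.le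
        _ = δ := mul_one _
    have e2 : |r * s| ≤ δ := by
      rw [abs_mul]
      calc |r| * |s| ≤ δ * 1 := mul_le_mul hr.le (hs.le.trans h1) (abs_nonneg _) hδ0.le
        _ = δ := mul_one _
    rw [abs_le] at e1 e2
    rw [abs_lt] at hp hq hr hs
    refine ⟨?_, ?_, ?_⟩ <;> rw [abs_lt] <;> constructor <;> linarith
  have a00 := hA 0 0
  have a01 := hA 0 1
  have a10 := hA 1 0
  have a11 := hA 1 1
  have b00 := hB 0 0
  have b01 := hB 0 1
  have b10 := hB 1 0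
  have b11 := hB 1 1
  have o01 : (1 : Matrix (Fin 2) (Fin 2) ℝ) 0 1 = 0 := Matrix.one_apply_ne (by decide)
  have o10 : (1 : Matrix (Fin 2) (Fin 2) ℝ) 1 0 = 0 := Matrix.one_apply_ne (by decide)
  have o00 : (1 : Matrix (Fin 2) (Fin 2) ℝ) 0 0 = 1 := Matrix.one_apply_eq _
  have o11 : (1 : Matrix (Fin 2) (Fin 2) ℝ) 1 1 = 1 := Matrix.one_apply_eq _
  rw [o00] at a00 b00
  rw [o11] at a11 b11
  rw [o01, sub_zero] at a01 b01
  rw [o10, sub_zero] at a10 b10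
  have i00 : (A⁻¹).1 0 0 = A.1 1 1 := by rw [inv1, Matrix.adjugate_fin_two]; rfl
  have i01 : (A⁻¹).1 0 1 = -A.1 0 1 := by rw [inv1, Matrix.adjugate_fin_two]; rfl
  have i10 : (A⁻¹).1 1 0 = -A.1 1 0 := by rw [inv1, Matrix.adjugate_fin_two]; rfl
  have i11 : (A⁻¹).1 1 1 = A.1 0 0 := by rw [inv1, Matrix.adjugate_fin_two]; rfl
  have an01 : |-A.1 0 1| < δ := by rwa [abs_neg]
  have an10 : |-A.1 1 0| < δ := by rwa [abs_neg]
  intro i j
  fin_cases i <;> fin_cases j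
  · change |(A⁻¹ * B).1 0 0 - (1 : Matrix (Fin 2) (Fin 2) ℝ) 0 0| < ε
    rw [mul00, i00, i01, o00]
    have e := (key (A.1 1 1 - 1) (B.1 0 0 - 1) (-A.1 0 1) (B.1 1 0) a11 b00 an01 b10).1
    have e2 : A.1 1 1 * B.1 0 0 + -A.1 0 1 * B.1 1 0 - 1 = (A.1 1 1 - 1) * (B.1 0 0 - 1) +
      -A.1 0 1 * B.1 1 0 + (A.1 1 1 - 1) + (B.1 0 0 - 1) := by ring
    rw [e2]
    linarith
  · change |(A⁻¹ * B).1 0 1 - (1 : Matrix (Fin 2) (Fin 2) ℝ) 0 1| < ε
    rw [mul01, i00, i01, o01, sub_zero]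
    have e := (key (B.1 0 1) (A.1 1 1 - 1) (-A.1 0 1) (B.1 1 1 - 1) b01 a11 an01 b11).2.2
    have e2 : A.1 1 1 * B.1 0 1 + -A.1 0 1 * B.1 1 1 = (B.1 0 1 * (A.1 1 1 - 1) +
      -A.1 0 1 * (B.1 1 1 - 1) + B.1 0 1) + -A.1 0 1 := by ring
    rw [e2]
    refine (abs_add_le _ _).trans_lt ?_
    linarith
  · change |(A⁻¹ * B).1 1 0 - (1 : Matrix (Fin 2) (Fin 2) ℝ) 1 0| < ε
    rw [mul10, i10, i11, o10, sub_zero]
    have e := (key (B.1 1 0) (A.1 0 0 - 1) (-A.1 1 0) (B.1 0 0 - 1) b10 a00 an10 b00).2.2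
    have e2 : -A.1 1 0 * B.1 0 0 + A.1 0 0 * B.1 1 0 = (B.1 1 0 * (A.1 0 0 - 1) +
      -A.1 1 0 * (B.1 0 0 - 1) + B.1 1 0) + -A.1 1 0 := by ring
    rw [e2]
    refine (abs_add_le _ _).trans_lt ?_
    linarith
  · change |(A⁻¹ * B).1 1 1 - (1 : Matrix (Fin 2) (Fin 2) ℝ) 1 1| < ε
    rw [mul11, i10, i11, o11]
    have e := (key (A.1 0 0 - 1) (B.1 1 1 - 1) (-A.1 1 0) (B.1 0 1) a00 b11 an10 b01).1
    have e2 : -A.1 1 0 * B.1 0 1 + A.1 0 0 * B.1 1 1 - 1 = (A.1 0 0 - 1) * (B.1 1 1 - 1) +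
      -A.1 1 0 * B.1 0 1 + (A.1 0 0 - 1) + (B.1 1 1 - 1) := by ring
    rw [e2]
    linarith

variable {N : Subgroup G}

/-- discreteness passes to overgroups of finite index -/
theorem disc_ext [N.FiniteIndex] {R : G →* PSLR} (hR : Function.Injective R)
    (h : Disc (R.comp N.subtype)) : Disc R := by
  obtain ⟨ε, hε, h1⟩ := h
  obtain ⟨δ, hδ, h2⟩ := exists_near ε hε
  -- every coset contains at most one element near 1
  have h3 : ∀ (g g' : G) (A A' : SLR), pr A = R g → pr A' = R g' →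
      (∀ i j, |A.1 i j - (1 : Matrix (Fin 2) (Fin 2) ℝ) i j| < δ) →
      (∀ i j, |A'.1 i j - (1 : Matrix (Fin 2) (Fin 2) ℝ) i j| < δ) →
      (g : G ⧸ N) = g' → g = g' := by
    intro g g' A A' hA hA' k k' hq
    have hn : g⁻¹ * g' ∈ N := QuotientGroup.eq.1 hq
    have h4 := h1 ⟨g⁻¹ * g', hn⟩ (A⁻¹ * A') (by
      rw [map_mul, map_inv, hA, hA', MonoidHom.comp_apply, Subgroup.coe_subtype, map_mul, map_inv])
      (h2 A A' k k')
    have h5 : g⁻¹ * g' = 1 := congrArg Subtype.val h4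
    exact (inv_mul_eq_one.1 h5)
  -- choose a radius for every coset
  have h4 : ∀ q : G ⧸ N, ∃ e : ℝ, 0 < e ∧ ∀ (g : G) (A : SLR), (g : G ⧸ N) = q → pr A = R g →
      (∀ i j, |A.1 i j - (1 : Matrix (Fin 2) (Fin 2) ℝ) i j| < e) → g = 1 := by
    intro q
    by_cases hq : ∃ (g : G) (A : SLR), (g : G ⧸ N) = q ∧ pr A = R g ∧
        (∀ i j, |A.1 i j - (1 : Matrix (Fin 2) (Fin 2) ℝ) i j| < δ)
    · obtain ⟨g, A, hgq, hA, hk⟩ := hq
      by_cases hg : g = 1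
      · refine ⟨δ, hδ, fun g' A' hg' hA' hk' => ?_⟩
        rw [← hg]
        exact h3 g' g A' A hA' hA hk' hk (hg'.trans hgq.symm)
      · obtain ⟨e, he, he'⟩ := exists_far (x := R g) fun h0 => hg (hR (by rw [h0, map_one]))
        refine ⟨min e δ, lt_min he hδ, fun g' A' hg' hA' hk' => ?_⟩
        exfalso
        have h5 := h3 g' g A' A hA' hA (fun i j => (hk' i j).trans_le (min_le_right _ _)) hk
          (hg'.trans hgq.symm)
        rw [h5] at hA'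
        exact he' A' hA' fun i j => (hk' i j).trans_le (min_le_left _ _)
    · refine ⟨δ, hδ, fun g A hg hA hk => ?_⟩
      exact absurd ⟨g, A, hg, hA, hk⟩ hq
  choose e he he' using h4
  have : Fintype (G ⧸ N) := Fintype.ofFinite _
  obtain ⟨q₀, -, hq₀⟩ := Finset.exists_min_image Finset.univ e ⟨((1 : G) : G ⧸ N), Finset.mem_univ _⟩
  refine ⟨e q₀, he q₀, fun g A hA hk => ?_⟩
  exact he' g g A rfl hA fun i j => (hk i j).trans_le (hq₀ _ (Finset.mem_univ _))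

theorem coc_ext {R : G →* PSLR} (h : Coc (R.comp N.subtype)) : Coc R := by
  obtain ⟨C, hC⟩ := h
  refine ⟨C, fun h => ?_⟩
  obtain ⟨g, A, h1, h2⟩ := hC h
  exact ⟨g, A, h1, h2⟩

theorem inj_ext [N.Normal] {R : G →* PSLR} (h : Function.Injective (R.comp N.subtype))
    (hC : ∀ l : G, (∀ n ∈ N, l * n = n * l) → l = 1) : Function.Injective R := by
  rw [injective_iff_map_eq_one]
  intro l hl
  apply hC
  intro n hn
  have h1 : l * n * l⁻¹ ∈ N := Subgroup.Normal.conj_mem inferInstance n hn l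
  have h2 : (⟨l * n * l⁻¹, h1⟩ : N) = ⟨n, hn⟩ := by
    apply h
    rw [MonoidHom.comp_apply, MonoidHom.comp_apply, Subgroup.coe_subtype, map_mul, map_mul, map_inv,
      hl, one_mul, inv_one, mul_one]
  exact mul_inv_eq_iff_eq_mul.1 (congrArg Subtype.val h2)

end

/-- NIELSEN REALISATION: `Λ` is a discrete cocompact subgroup of `PSL_2(ℝ)`. -/
theorem NRd.realise' {Λ : Type} [Group Λ] {N : Subgroup Λ} [N.Normal] [N.FiniteIndex]
    {M : Set (N →* SLR)} {a b : N} (h : NRd N M a b) (hfg : Group.FG N)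
    (hd : ∀ ρ ∈ M, Disc (pr.comp ρ)) (hc : ∀ ρ ∈ M, Coc (pr.comp ρ))
    (hC : ∀ l : Λ, (∀ n ∈ N, l * n = n * l) → l = 1) :
    ∃ R : Λ →* PSLR, Function.Injective R ∧ Disc R ∧ Coc R := by
  obtain ⟨ρ, hρ, R, hR⟩ := h.realise hfg
  have h1 : R.comp N.subtype = pr.comp ρ := by
    ext x
    exact hR x
  have h2 : Disc (R.comp N.subtype) := by
    rw [h1]
    exact hd ρ hρ
  have h3 : Function.Injective R := inj_ext h2.inj hC
  refine ⟨R, h3, disc_ext h3 h2, coc_ext (N := N) ?_⟩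
  rw [h1]
  exact hc ρ hρ

end Pool.Agent.ToN
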