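import Pool.Agent.Lib.MP_305fdd_al.To.N.Nf

/-!
# MP_305fdd_al, torsion: the abstract end of Nielsen realisation, part 1: existence of the minimum

`N` is a normal subgroup of finite index of `Λ`, `M` is a set of representations `N → SL_2(ℝ)`, with the
properties collected in `NRd`.
-/

set_option autoImplicit false

namespace Pool.Agent.ToN

open Matrix Filter Topology

/-- the sign as a real number -/
def sg (u : ℤˣ) : ℝ := ((u : ℤ) : ℝ)

theorem sg_mul (u v : ℤˣ) : sg (u * v) = sg u * sg v := by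
  unfold sg
  push_cast
  rfl

theorem sg_cases (u : ℤˣ) : sg u = 1 ∨ sg u = -1 := by
  rcases Int.units_eq_one_or u with h | h
  · left
    rw [h]
    simp [sg]
  · right
    rw [h]
    simp [sg]

/-- DATA FOR NIELSEN REALISATION: a set of representations of `N` -/
structure NRd {Λ : Type} [Group Λ] (N : Subgroup Λ) [N.Normal] (M : Set (N →* SLR)) (a b : N) :
    Prop where
  ne : M.Nonempty
  closed : ∀ ρ : N →* SLR, (∀ (S : Finset N) (ε : ℝ), 0 < ε → ∃ ρ' ∈ M, ∀ x ∈ S, ∀ i j,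
    |(ρ' x).1 i j - (ρ x).1 i j| < ε) → ρ ∈ M
  conj : ∀ ρ ∈ M, ∀ g : SLR, (MulAut.conj g).toMonoidHom.comp ρ ∈ M
  inv : ∀ ρ ∈ M, ∀ l : Λ, ρ.comp (MulAut.conjNormal l).toMonoidHom ∈ M
  mid : ∀ ρ₁ ∈ M, ∀ ρ₂ ∈ M, ∃ ρ ∈ M, ∀ x, (ρ x).1.trace ^ 2 ≤ |(ρ₁ x).1.trace| * |(ρ₂ x).1.trace|
  sgn : ∀ ρ₁ ∈ M, ∀ ρ₂ ∈ M, ∃ χ : N →* ℤˣ, ∀ x, 0 ≤ sg (χ x) * (ρ₁ x).1.trace * (ρ₂ x).1.trace
  com : ∀ ρ ∈ M, (ρ (a * b * a⁻¹ * b⁻¹)).1.trace < -2
  ori : ∀ ρ ∈ M, 0 < (ρ a).1.trace * (ρ b).1.trace * ((ρ a * ρ b).1 1 0 - (ρ b * ρ a).1 1 0)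

section lim

variable {N : Type} [Group N]

theorem com_nf {a b : N} {ρ : N →* SLR} (h : (ρ (a * b * a⁻¹ * b⁻¹)).1.trace < -2) :
    ∃ g : SLR, Nf (g * ρ a * g⁻¹) (g * ρ b * g⁻¹) := by
  apply exists_nf
  rwa [map_mul, map_mul, map_mul, map_inv, map_inv] at h

/-- bounded representations have a limit along an ultrafilter -/
theorem exists_ulim (U : Ultrafilter ℕ) (ρ : ℕ → N →* SLR)
    (hb : ∀ x : N, ∃ C : ℝ, ∀ n i j, |(ρ n x).1 i j| ≤ C) :
    ∃ r : N →* SLR, ∀ x i j, Tendsto (fun n => (ρ n x).1 i j) U (𝓝 ((r x).1 i j)) := by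
  have h1 : ∀ x i j, ∃ l : ℝ, Tendsto (fun n => (ρ n x).1 i j) U (𝓝 l) := by
    intro x i j
    obtain ⟨C, hC⟩ := hb x
    have hc : IsCompact (Set.Icc (-C) C) := isCompact_Icc
    obtain ⟨l, -, hl⟩ := hc.ultrafilter_le_nhds (U.map fun n => (ρ n x).1 i j) (by
      rw [le_principal_iff]
      change _ ∈ (U : Filter ℕ)
      refine Filter.Eventually.of_forall fun n => ?_
      exact abs_le.1 (hC n i j))
    exact ⟨l, hl⟩
  choose L hL using h1
  have hdet : ∀ x, (Matrix.of (L x)).det = 1 := by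
    intro x
    rw [Matrix.det_fin_two]
    have h2 := ((hL x 0 0).mul (hL x 1 1)).sub ((hL x 0 1).mul (hL x 1 0))
    have h3 : (fun n => (ρ n x).1 0 0 * (ρ n x).1 1 1 - (ρ n x).1 0 1 * (ρ n x).1 1 0) =
        fun _ => (1 : ℝ) := funext fun n => slr_det _
    rw [h3] at h2
    exact (tendsto_nhds_unique h2 tendsto_const_nhds)
  have hmul : ∀ x y i j, L (x * y) i j = L x i 0 * L y 0 j + L x i 1 * L y 1 j := by
    intro x y i j
    refine tendsto_nhds_unique (hL (x * y) i j) ?_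
    have h2 := ((hL x i 0).mul (hL y 0 j)).add ((hL x i 1).mul (hL y 1 j))
    refine h2.congr fun n => ?_
    rw [map_mul, mul1, Matrix.mul_apply, Fin.sum_univ_two]
  have hone : ∀ i j, L 1 i j = (1 : Matrix (Fin 2) (Fin 2) ℝ) i j := by
    intro i j
    refine tendsto_nhds_unique (hL 1 i j) ?_
    refine tendsto_const_nhds.congr fun n => ?_
    rw [map_one]
    rfl
  refine ⟨⟨⟨fun x => ⟨Matrix.of (L x), hdet x⟩, ?_⟩, ?_⟩, fun x i j => hL x i j⟩
  · apply Subtype.ext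
    ext i j
    exact hone i j
  · intro x y
    apply Subtype.ext
    ext i j
    change L (x * y) i j = (Matrix.of (L x) * Matrix.of (L y)) i j
    rw [hmul, Matrix.mul_apply, Fin.sum_univ_two]
    rfl

/-- entries are bounded on a group generated by elements with bounded entries -/
theorem bdd_all (ρ : ℕ → N →* SLR) (G : Set N) (hG : Subgroup.closure G = ⊤)
    (hb : ∀ x ∈ G, ∃ C : ℝ, ∀ n i j, |(ρ n x).1 i j| ≤ C) (x : N) :
    ∃ C : ℝ, ∀ n i j, |(ρ n x).1 i j| ≤ C := by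
  have hx : x ∈ Subgroup.closure G := by
    rw [hG]
    exact Subgroup.mem_top x
  induction hx using Subgroup.closure_induction with
  | mem x hx => exact hb x hx
  | one =>
    refine ⟨1, fun n i j => ?_⟩
    rw [map_one, one1]
    fin_cases i <;> fin_cases j <;> simp
  | mul x y _ _ hx hy =>
    obtain ⟨C, hC⟩ := hx
    obtain ⟨D, hD⟩ := hy
    have hC0 : 0 ≤ C := (abs_nonneg _).trans (hC 0 0 0)
    refine ⟨C * D + C * D, fun n i j => ?_⟩
    rw [map_mul, mul1, Matrix.mul_apply, Fin.sum_univ_two]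
    refine (abs_add_le _ _).trans (add_le_add ?_ ?_)
    · rw [abs_mul]
      exact mul_le_mul (hC n i 0) (hD n 0 j) (abs_nonneg _) hC0
    · rw [abs_mul]
      exact mul_le_mul (hC n i 1) (hD n 1 j) (abs_nonneg _) hC0
  | inv x _ hx =>
    obtain ⟨C, hC⟩ := hx
    refine ⟨C, fun n i j => ?_⟩
    rw [map_inv, inv1, Matrix.adjugate_fin_two]
    fin_cases i <;> fin_cases j
    · exact hC n 1 1
    · change |-(ρ n x).1 0 1| ≤ C
      rw [abs_neg]
      exact hC n 0 1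
    · change |-(ρ n x).1 1 0| ≤ C
      rw [abs_neg]
      exact hC n 1 0
    · exact hC n 0 0

end lim

section

variable {Λ : Type} [Group Λ] {N : Subgroup Λ} [N.Normal] {M : Set (N →* SLR)} {a b : N}

/-- bounded traces on a suitable finite set: after conjugation there is a limit in `M` -/
theorem NRd.exists_lim (h : NRd N M a b) (U : Ultrafilter ℕ)
    (G : Finset N) (hG : Subgroup.closure (G : Set N) = ⊤)
    (ρ : ℕ → N →* SLR) (hρ : ∀ n, ρ n ∈ M) (C : ℝ) (hC : ∀ n, |(ρ n a).1.trace| ≤ C ∧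
      |(ρ n b).1.trace| ≤ C ∧ |(ρ n (a * b)).1.trace| ≤ C ∧ ∀ s ∈ G, |(ρ n s).1.trace| ≤ C ∧
        |(ρ n (a * s)).1.trace| ≤ C ∧ |(ρ n (b * s)).1.trace| ≤ C) :
    ∃ r ∈ M, ∀ x, Tendsto (fun n => (ρ n x).1.trace) U (𝓝 (r x).1.trace) := by
  choose g hg using fun n => com_nf (h.com (ρ n) (hρ n))
  let ρ' : ℕ → N →* SLR := fun n => (MulAut.conj (g n)).toMonoidHom.comp (ρ n)
  have hρ' : ∀ n x, ρ' n x = g n * ρ n x * (g n)⁻¹ := fun n x => rfl
  have htr : ∀ n x, (ρ' n x).1.trace = (ρ n x).1.trace := by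
    intro n x
    rw [hρ', tr_conj']
  obtain ⟨K, hK⟩ := bnd C
  have hb : ∀ x ∈ (G : Set N), ∃ C : ℝ, ∀ n i j, |(ρ' n x).1 i j| ≤ C := by
    intro x hx
    refine ⟨K, fun n => ?_⟩
    obtain ⟨h1, h2, h3, h4⟩ := hC n
    obtain ⟨h5, h6, h7⟩ := h4 x hx
    have h8 := hK (ρ' n a) (ρ' n b) (hg n) (by rw [htr]; exact h1) (by rw [htr]; exact h2)
      (by rw [← map_mul, htr]; exact h3)
    exact h8.2.2 (ρ' n x) (by rw [htr]; exact h5) (by rw [← map_mul, htr]; exact h6)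
      (by rw [← map_mul, htr]; exact h7)
  obtain ⟨r, hr⟩ := exists_ulim U ρ' (bdd_all ρ' G hG hb)
  refine ⟨r, ?_, ?_⟩
  · refine h.closed r fun S ε hε => ?_
    have h1 : ∀ᶠ n in (U : Filter ℕ), ∀ x ∈ S, ∀ i j, |(ρ' n x).1 i j - (r x).1 i j| < ε := by
      rw [Filter.eventually_all_finset]
      intro x _
      rw [Filter.eventually_all]
      intro i
      rw [Filter.eventually_all]
      intro j
      have h2 := (hr x i j).eventually (Metric.ball_mem_nhds _ hε)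
      refine h2.mono fun n hn => ?_
      rwa [Real.dist_eq] at hn
    obtain ⟨n, hn⟩ := h1.exists
    exact ⟨ρ' n, h.conj _ (hρ n) _, hn⟩
  · intro x
    have h1 := (hr x 0 0).add (hr x 1 1)
    rw [← tr_eq] at h1
    refine h1.congr fun n => ?_
    rw [← tr_eq, htr]

/-- the energy -/
noncomputable def En [Fintype (Λ ⧸ N)] (S : Finset N) (ρ : N →* SLR) : ℝ :=
  ∑ q : Λ ⧸ N, ∑ s ∈ S, |(ρ (MulAut.conjNormal q.out s)).1.trace|

theorem tr_coset (ρ : N →* SLR) {l l' : Λ} (h : (l : Λ ⧸ N) = l') (s : N) :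
    (ρ (MulAut.conjNormal l s)).1.trace = (ρ (MulAut.conjNormal l' s)).1.trace := by
  obtain ⟨n, hn⟩ : ∃ n : N, l' = l * n := ⟨⟨l⁻¹ * l', QuotientGroup.eq.1 h⟩, by simp⟩
  have h1 : MulAut.conjNormal l' s =
      MulAut.conjNormal l n * MulAut.conjNormal l s * (MulAut.conjNormal l n)⁻¹ := by
    apply Subtype.ext
    rw [hn]
    simp only [MulAut.conjNormal_apply, Subgroup.coe_mul, Subgroup.coe_inv]
    group
  rw [h1, map_mul, map_mul, map_inv, tr_conj']

theorem En_inv [Fintype (Λ ⧸ N)] (S : Finset N) (ρ : N →* SLR) (l : Λ) :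
    En S (ρ.comp (MulAut.conjNormal l).toMonoidHom) = En S ρ := by
  unfold En
  have h1 : ∀ q : Λ ⧸ N, ∑ s ∈ S,
      |((ρ.comp (MulAut.conjNormal l).toMonoidHom) (MulAut.conjNormal q.out s)).1.trace| =
      ∑ s ∈ S, |(ρ (MulAut.conjNormal (l • q).out s)).1.trace| := by
    intro q
    refine Finset.sum_congr rfl fun s _ => ?_
    congr 1
    have h2 : (ρ.comp (MulAut.conjNormal l).toMonoidHom) (MulAut.conjNormal q.out s) =
        ρ (MulAut.conjNormal (l * q.out) s) := by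
      rw [MonoidHom.comp_apply]
      congr 1
      rw [map_mul]
      rfl
    rw [h2]
    apply tr_coset
    rw [QuotientGroup.out_eq']
    conv_rhs => rw [← QuotientGroup.out_eq' q]
    rfl
  rw [Finset.sum_congr rfl fun q _ => h1 q]
  exact Equiv.sum_comp (MulAction.toPerm l : Equiv.Perm (Λ ⧸ N))
    (fun q => ∑ s ∈ S, |(ρ (MulAut.conjNormal q.out s)).1.trace|)

theorem le_En [Fintype (Λ ⧸ N)] (S : Finset N) (ρ : N →* SLR) {s : N} (hs : s ∈ S) :
    |(ρ s).1.trace| ≤ En S ρ := by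
  have h1 : (ρ s).1.trace = (ρ (MulAut.conjNormal ((1 : Λ) : Λ ⧸ N).out s)).1.trace := by
    have h2 := tr_coset ρ (l := ((1 : Λ) : Λ ⧸ N).out) (l' := 1) (QuotientGroup.out_eq' _) s
    rw [h2, map_one]
    rfl
  rw [h1]
  refine (Finset.single_le_sum (f := fun s =>
    |(ρ (MulAut.conjNormal ((1 : Λ) : Λ ⧸ N).out s)).1.trace|) (fun _ _ => abs_nonneg _) hs).trans ?_
  exact Finset.single_le_sum (f := fun q : Λ ⧸ N =>
    ∑ s ∈ S, |(ρ (MulAut.conjNormal q.out s)).1.trace|)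
    (fun _ _ => Finset.sum_nonneg fun _ _ => abs_nonneg _) (Finset.mem_univ _)

open Classical in
/-- the finite set on which the traces are taken -/
noncomputable def SS (a b : N) (G : Finset N) : Finset N :=
  {a, b, a * b} ∪ G ∪ G.image (a * ·) ∪ G.image (b * ·) ∪ G.image (a * b * ·)

/-- EXISTENCE OF THE MINIMUM -/
theorem NRd.exists_min (h : NRd N M a b) [Fintype (Λ ⧸ N)] (G : Finset N)
    (hG : Subgroup.closure (G : Set N) = ⊤) :
    ∃ r ∈ M, ∀ r' ∈ M, En (SS a b G) r ≤ En (SS a b G) r' := by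
  classical
  set S := SS a b G with hS
  have hS' : S = {a, b, a * b} ∪ G ∪ G.image (a * ·) ∪ G.image (b * ·) ∪
      G.image (a * b * ·) := rfl
  set m := sInf (En S '' M) with hm
  have hbd : BddBelow (En S '' M) := by
    refine ⟨0, ?_⟩
    rintro _ ⟨ρ, _, rfl⟩
    exact Finset.sum_nonneg fun _ _ => Finset.sum_nonneg fun _ _ => abs_nonneg _
  have hne : (En S '' M).Nonempty := h.ne.image _
  have hex : ∀ n : ℕ, ∃ ρ ∈ M, En S ρ < m + 1 / ((n : ℝ) + 1) := by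
    intro n
    have hpos : (0 : ℝ) < 1 / ((n : ℝ) + 1) := by positivity
    obtain ⟨_, ⟨ρ, hρ, rfl⟩, hlt⟩ := exists_lt_of_csInf_lt hne (lt_add_of_pos_right m hpos)
    exact ⟨ρ, hρ, hlt⟩
  choose ρ hρM hρE using hex
  have hE1 : ∀ n, En S (ρ n) ≤ m + 1 := by
    intro n
    refine (hρE n).le.trans (add_le_add_right ?_ m)
    rw [div_le_one (by positivity)]
    linarith [(Nat.cast_nonneg n : (0 : ℝ) ≤ n)]
  have hin : ∀ n, ∀ s ∈ S, |(ρ n s).1.trace| ≤ m + 1 := fun n s hs => (le_En S _ hs).trans (hE1 n)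
  obtain ⟨r, hr, hlim⟩ := h.exists_lim (Filter.hyperfilter ℕ) G hG ρ hρM
    (m + 1) (fun n => ⟨hin n _ (by rw [hS']; simp), hin n _ (by rw [hS']; simp),
      hin n _ (by rw [hS']; simp), fun s hs => ⟨hin n _ (by rw [hS']; simp [hs]),
        hin n _ (by rw [hS']; simp [hs]), hin n _ (by rw [hS']; simp [hs])⟩⟩)
  refine ⟨r, hr, fun r' hr' => ?_⟩
  have h1 : Tendsto (fun n => En S (ρ n)) (Filter.hyperfilter ℕ : Filter ℕ) (𝓝 (En S r)) := by
    unfold En
    refine tendsto_finsetSum _ fun q _ => tendsto_finsetSum _ fun s _ => ?_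
    exact (hlim _).abs
  have h2 : Tendsto (fun n : ℕ => m + 1 / ((n : ℝ) + 1)) (Filter.hyperfilter ℕ : Filter ℕ)
      (𝓝 (m + 0)) :=
    (tendsto_const_nhds.add tendsto_one_div_add_atTop_nhds_zero_nat).mono_left
      Nat.hyperfilter_le_atTop
  have h3 := le_of_tendsto_of_tendsto' h1 h2 fun n => (hρE n).le
  rw [add_zero] at h3
  exact h3.trans (csInf_le hbd ⟨r', hr', rfl⟩)

end

end Pool.Agent.ToN
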