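import Mathlib

/-!
# MP_305fdd_al, torsion: normal form of a pair of real matrices whose commutator has trace less than -2

`exists_nf`: such a pair is conjugate in `SL_2(ℝ)` to a diagonal matrix and a symmetric matrix.
`bnd`: bounds for the entries in terms of the traces.
-/

set_option autoImplicit false

namespace Pool.Agent.ToN

open Matrix

/-- `SL_2(ℝ)` -/
abbrev SLR := Matrix.SpecialLinearGroup (Fin 2) ℝ

theorem mul1 (A B : SLR) : (A * B).1 = A.1 * B.1 := rfl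

theorem inv1 (A : SLR) : (A⁻¹).1 = A.1.adjugate := rfl

theorem one1 : (1 : SLR).1 = 1 := rfl

theorem slr_det (A : SLR) : A.1 0 0 * A.1 1 1 - A.1 0 1 * A.1 1 0 = 1 := by
  have := A.2
  rwa [Matrix.det_fin_two] at this

theorem tr_eq (A : SLR) : A.1.trace = A.1 0 0 + A.1 1 1 := Matrix.trace_fin_two _

theorem tr_mul' (A B : SLR) : (A * B).1.trace =
    A.1 0 0 * B.1 0 0 + A.1 0 1 * B.1 1 0 + A.1 1 0 * B.1 0 1 + A.1 1 1 * B.1 1 1 := by
  rw [mul1, Matrix.trace_fin_two, Matrix.mul_apply, Matrix.mul_apply,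
    Fin.sum_univ_two, Fin.sum_univ_two]
  ring

theorem tr_conj' (g A : SLR) : (g * A * g⁻¹).1.trace = A.1.trace := by
  have h : (g * A * g⁻¹).1.trace = (g⁻¹ * (g * A)).1.trace := by
    rw [mul1, Matrix.trace_mul_comm, ← mul1]
  rw [h, inv_mul_cancel_left]

/-- FRICKE -/
theorem fricke (A B : SLR) : (A * B * A⁻¹ * B⁻¹).1.trace =
    A.1.trace ^ 2 + B.1.trace ^ 2 + (A * B).1.trace ^ 2 - A.1.trace * B.1.trace * (A * B).1.trace
      - 2 := by
  have ha := slr_det A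
  have hb := slr_det B
  have e : (A * B * A⁻¹ * B⁻¹).1 = A.1 * B.1 * A.1.adjugate * B.1.adjugate := rfl
  rw [e, mul1]
  generalize A.1 = M at ha ⊢
  generalize B.1 = P at hb ⊢
  simp only [Matrix.trace_fin_two, Matrix.adjugate_fin_two, Matrix.mul_apply, Fin.sum_univ_two,
    Matrix.of_apply, Matrix.cons_val', Matrix.cons_val_zero, Matrix.cons_val_one,
    Matrix.cons_val_fin_one]
  generalize M 0 0 = a at *
  generalize M 0 1 = b at *
  generalize M 1 0 = c at *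
  generalize M 1 1 = d at *
  generalize P 0 0 = p at *
  generalize P 0 1 = q at *
  generalize P 1 0 = r at *
  generalize P 1 1 = s at *
  linear_combination ((p + s) ^ 2 - 2 * (p * s - q * r)) * ha + ((a + d) ^ 2 - 2) * hb

/-- the three traces are large -/
theorem tr_large {A B : SLR} (h : (A * B * A⁻¹ * B⁻¹).1.trace < -2) {C : ℝ}
    (hA : |A.1.trace| ≤ C) (hB : |B.1.trace| ≤ C) (hAB : |(A * B).1.trace| ≤ C) :
    16 ≤ (A.1.trace ^ 2 - 4) * C ^ 2 ∧ 0 < C := by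
  rw [fricke] at h
  generalize A.1.trace = x at *
  generalize B.1.trace = y at *
  generalize (A * B).1.trace = z at *
  have h1 : x ^ 2 + y ^ 2 + z ^ 2 < |x| * |y| * |z| := by
    have : x * y * z ≤ |x| * |y| * |z| := by
      rw [← abs_mul, ← abs_mul]
      exact le_abs_self _
    linarith
  have hx : 0 ≤ |x| := abs_nonneg x
  have hy : 0 ≤ |y| := abs_nonneg y
  have hz : 0 ≤ |z| := abs_nonneg z
  have hx2 : x ^ 2 = |x| ^ 2 := (sq_abs x).symm
  have hy2 : y ^ 2 = |y| ^ 2 := (sq_abs y).symm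
  have hz2 : z ^ 2 = |z| ^ 2 := (sq_abs z).symm
  rw [hx2, hy2, hz2] at h1
  rw [hx2]
  generalize |x| = X at *
  generalize |y| = Y at *
  generalize |z| = Z at *
  have hYZ : 2 * (Y * Z) ≤ Y ^ 2 + Z ^ 2 := by nlinarith [sq_nonneg (Y - Z)]
  have h2 : X ^ 2 < Y * Z * (X - 2) := by nlinarith
  have hYZ0 : 0 ≤ Y * Z := mul_nonneg hy hz
  have hX2 : 2 < X := by
    by_contra hc
    push Not at hc
    nlinarith [mul_nonneg hYZ0 (sub_nonneg.2 hc), sq_nonneg X]
  have hC : 0 < C := by linarith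
  have hYZC : Y * Z ≤ C ^ 2 := by nlinarith
  refine ⟨?_, hC⟩
  have h3 : X ^ 2 < C ^ 2 * (X - 2) := by
    have : Y * Z * (X - 2) ≤ C ^ 2 * (X - 2) := mul_le_mul_of_nonneg_right hYZC (by linarith)
    linarith
  nlinarith

theorem exists_eig {A : SLR} {l : ℝ} (h : l ^ 2 - A.1.trace * l + 1 = 0) :
    ∃ v0 v1 : ℝ, ¬ (v0 = 0 ∧ v1 = 0) ∧ A.1 0 0 * v0 + A.1 0 1 * v1 = l * v0 ∧
      A.1 1 0 * v0 + A.1 1 1 * v1 = l * v1 := by
  have hA := slr_det A
  rw [tr_eq] at h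
  have h0 : (A.1 - l • (1 : Matrix (Fin 2) (Fin 2) ℝ)).det = 0 := by
    rw [Matrix.det_fin_two]
    simp only [Matrix.sub_apply, Matrix.smul_apply, Matrix.one_apply_eq, smul_eq_mul, mul_one,
      Matrix.one_apply_ne (show (0 : Fin 2) ≠ 1 by decide),
      Matrix.one_apply_ne (show (1 : Fin 2) ≠ 0 by decide), mul_zero, sub_zero]
    linear_combination h + hA
  obtain ⟨v, hv, hv0⟩ := Matrix.exists_mulVec_eq_zero_iff.2 h0
  refine ⟨v 0, v 1, ?_, ?_, ?_⟩
  · rintro ⟨h1, h2⟩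
    apply hv
    funext i
    fin_cases i
    · exact h1
    · exact h2
  · have h1 := congrFun hv0 0
    simp only [Matrix.mulVec, dotProduct, Fin.sum_univ_two, Matrix.sub_apply, Matrix.smul_apply,
      Matrix.one_apply_eq, smul_eq_mul, mul_one, Matrix.one_apply_ne (show (0 : Fin 2) ≠ 1 by decide),
      mul_zero, sub_zero, Pi.zero_apply] at h1
    linear_combination h1
  · have h1 := congrFun hv0 1
    simp only [Matrix.mulVec, dotProduct, Fin.sum_univ_two, Matrix.sub_apply, Matrix.smul_apply,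
      Matrix.one_apply_eq, smul_eq_mul, mul_one, Matrix.one_apply_ne (show (1 : Fin 2) ≠ 0 by decide),
      mul_zero, sub_zero, Pi.zero_apply] at h1
    linear_combination h1

theorem exists_root {t : ℝ} (h : 4 < t ^ 2) : ∃ l m : ℝ, l + m = t ∧ l * m = 1 ∧ 1 < |l| := by
  have hs : 0 < √(t ^ 2 - 4) := Real.sqrt_pos.2 (by linarith)
  have hs2 : √(t ^ 2 - 4) ^ 2 = t ^ 2 - 4 := Real.sq_sqrt (by linarith)
  rcases lt_or_ge 0 t with h0 | h0
  · have ht : 2 < t := by nlinarith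
    refine ⟨(t + √(t ^ 2 - 4)) / 2, (t - √(t ^ 2 - 4)) / 2, by ring, by nlinarith, ?_⟩
    rw [abs_of_pos (by linarith)]
    linarith
  · have ht : t < -2 := by nlinarith
    refine ⟨(t - √(t ^ 2 - 4)) / 2, (t + √(t ^ 2 - 4)) / 2, by ring, by nlinarith, ?_⟩
    rw [abs_of_neg (by linarith)]
    linarith

theorem slr_ext {A B : SLR} (h00 : A.1 0 0 = B.1 0 0) (h01 : A.1 0 1 = B.1 0 1)
    (h10 : A.1 1 0 = B.1 1 0) (h11 : A.1 1 1 = B.1 1 1) : A = B := by
  apply Subtype.ext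
  ext i j
  fin_cases i <;> fin_cases j
  · exact h00
  · exact h01
  · exact h10
  · exact h11

/-- an element of `SL_2(ℝ)` from its entries -/
def mkS (a b c d : ℝ) (h : a * d - b * c = 1) : SLR :=
  ⟨!![a, b; c, d], by rw [Matrix.det_fin_two_of]; exact h⟩

@[simp] theorem mkS00 {a b c d : ℝ} (h : a * d - b * c = 1) : (mkS a b c d h).1 0 0 = a := rfl
@[simp] theorem mkS01 {a b c d : ℝ} (h : a * d - b * c = 1) : (mkS a b c d h).1 0 1 = b := rfl
@[simp] theorem mkS10 {a b c d : ℝ} (h : a * d - b * c = 1) : (mkS a b c d h).1 1 0 = c := rfl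
@[simp] theorem mkS11 {a b c d : ℝ} (h : a * d - b * c = 1) : (mkS a b c d h).1 1 1 = d := rfl

theorem mul00 (A B : SLR) : (A * B).1 0 0 = A.1 0 0 * B.1 0 0 + A.1 0 1 * B.1 1 0 := by
  rw [mul1, Matrix.mul_apply, Fin.sum_univ_two]

theorem mul01 (A B : SLR) : (A * B).1 0 1 = A.1 0 0 * B.1 0 1 + A.1 0 1 * B.1 1 1 := by
  rw [mul1, Matrix.mul_apply, Fin.sum_univ_two]

theorem mul10 (A B : SLR) : (A * B).1 1 0 = A.1 1 0 * B.1 0 0 + A.1 1 1 * B.1 1 0 := by
  rw [mul1, Matrix.mul_apply, Fin.sum_univ_two]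

theorem mul11 (A B : SLR) : (A * B).1 1 1 = A.1 1 0 * B.1 0 1 + A.1 1 1 * B.1 1 1 := by
  rw [mul1, Matrix.mul_apply, Fin.sum_univ_two]

/-- a hyperbolic matrix can be diagonalised -/
theorem exists_diag {A : SLR} (h : 4 < A.1.trace ^ 2) :
    ∃ g : SLR, (g * A * g⁻¹).1 0 1 = 0 ∧ (g * A * g⁻¹).1 1 0 = 0 ∧
      1 < |(g * A * g⁻¹).1 0 0| := by
  obtain ⟨l, m, hlm, hlm1, hl⟩ := exists_root h
  obtain ⟨v0, v1, hv, hv0, hv1⟩ := exists_eig (A := A) (l := l) (by rw [← hlm]; linarith)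
  obtain ⟨w0, w1, hw, hw0, hw1⟩ := exists_eig (A := A) (l := m) (by rw [← hlm]; linarith)
  have hne : l ≠ m := by
    intro h0
    rw [← h0] at hlm1
    have : l = 1 ∨ l = -1 := by
      have : (l - 1) * (l + 1) = 0 := by linarith
      rcases mul_eq_zero.1 this with h1 | h1
      · exact Or.inl (by linarith)
      · exact Or.inr (by linarith)
    rcases this with h1 | h1 <;> rw [h1] at hl <;> norm_num at hl
  have hD : v0 * w1 - w0 * v1 ≠ 0 := by
    intro h0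
    have e0 : (l - m) * (v0 * w0) = 0 := by
      linear_combination (-w0) * hv0 + v0 * hw0 + A.1 0 1 * h0 * (-1)
    have e1 : (l - m) * (v1 * w1) = 0 := by
      linear_combination (-w1) * hv1 + v1 * hw1 + A.1 1 0 * h0
    have e2 : (l - m) * (v0 * w1) = 0 := by
      linear_combination (-w1) * hv0 + v1 * hw0 + (A.1 0 0 - m) * h0
    have f0 := (mul_eq_zero.1 e0).resolve_left (sub_ne_zero.2 hne)
    have f1 := (mul_eq_zero.1 e1).resolve_left (sub_ne_zero.2 hne)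
    have f2 := (mul_eq_zero.1 e2).resolve_left (sub_ne_zero.2 hne)
    by_cases hz : v0 = 0
    · have hz1 : v1 ≠ 0 := fun h1 => hv ⟨hz, h1⟩
      have g1 := (mul_eq_zero.1 f1).resolve_left hz1
      have g2 : w0 * v1 = 0 := by linarith
      exact hw ⟨(mul_eq_zero.1 g2).resolve_right hz1, g1⟩
    · exact hw ⟨(mul_eq_zero.1 f0).resolve_left hz, (mul_eq_zero.1 f2).resolve_left hz⟩
  set D := v0 * w1 - w0 * v1 with hDef
  let P : SLR := mkS (v0 / D) w0 (v1 / D) w1 (by field_simp; rw [hDef])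
  let L : SLR := mkS l 0 0 m (by linarith)
  have hAP : A * P = P * L := by
    apply slr_ext
    · rw [mul00, mul00]
      simp only [P, L, mkS00, mkS01, mkS10]
      field_simp
      linarith
    · rw [mul01, mul01]
      simp only [P, L, mkS00, mkS01, mkS11]
      linarith
    · rw [mul10, mul10]
      simp only [P, L, mkS00, mkS10, mkS11]
      field_simp
      linarith
    · rw [mul11, mul11]
      simp only [P, L, mkS01, mkS10, mkS11]
      linarith
  have hg : P⁻¹ * A * P⁻¹⁻¹ = L := by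
    rw [inv_inv, mul_assoc, hAP, inv_mul_cancel_left]
  refine ⟨P⁻¹, ?_, ?_, ?_⟩ <;> rw [hg]
  · rfl
  · rfl
  · exact hl

/-- NORMAL FORM of a pair -/
structure Nf (A B : SLR) : Prop where
  a01 : A.1 0 1 = 0
  a10 : A.1 1 0 = 0
  big : 1 < |A.1 0 0|
  sym : B.1 0 1 = B.1 1 0
  pos : 4 < (A.1 0 0 - A.1 1 1) ^ 2 * (B.1 0 1) ^ 2

theorem tr_com_diag {A B : SLR} (h01 : A.1 0 1 = 0) (h10 : A.1 1 0 = 0) :
    (A * B * A⁻¹ * B⁻¹).1.trace = 2 - (A.1 0 0 - A.1 1 1) ^ 2 * (B.1 0 1 * B.1 1 0) := by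
  have hA := slr_det A
  have hB := slr_det B
  rw [h01, h10] at hA
  rw [fricke, tr_mul', tr_eq, tr_eq, h01, h10]
  generalize A.1 0 0 = a at *
  generalize A.1 1 1 = d at *
  generalize B.1 0 0 = p at *
  generalize B.1 0 1 = q at *
  generalize B.1 1 0 = r at *
  generalize B.1 1 1 = s at *
  linear_combination (4 - (p + s) ^ 2) * hA - (a - d) ^ 2 * hB

theorem tr_gt {A B : SLR} (h : (A * B * A⁻¹ * B⁻¹).1.trace < -2) : 4 < A.1.trace ^ 2 := by
  obtain ⟨h1, h2⟩ := tr_large h (C := |A.1.trace| + |B.1.trace| + |(A * B).1.trace|)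
    (by linarith [abs_nonneg B.1.trace, abs_nonneg (A * B).1.trace])
    (by linarith [abs_nonneg A.1.trace, abs_nonneg (A * B).1.trace])
    (by linarith [abs_nonneg A.1.trace, abs_nonneg B.1.trace])
  by_contra hc
  push Not at hc
  nlinarith [sq_nonneg (|A.1.trace| + |B.1.trace| + |(A * B).1.trace|)]

theorem conj_com (g A B : SLR) : (g * A * g⁻¹) * (g * B * g⁻¹) * (g * A * g⁻¹)⁻¹ * (g * B * g⁻¹)⁻¹ =
    g * (A * B * A⁻¹ * B⁻¹) * g⁻¹ := by group

theorem exists_nf {A B : SLR} (h : (A * B * A⁻¹ * B⁻¹).1.trace < -2) :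
    ∃ g : SLR, Nf (g * A * g⁻¹) (g * B * g⁻¹) := by
  obtain ⟨g, h01, h10, hb⟩ := exists_diag (tr_gt h)
  have hc : ((g * A * g⁻¹) * (g * B * g⁻¹) * (g * A * g⁻¹)⁻¹ * (g * B * g⁻¹)⁻¹).1.trace < -2 := by
    rw [conj_com, tr_conj']
    exact h
  rw [tr_com_diag h01 h10] at hc
  have hdA := slr_det (g * A * g⁻¹)
  rw [h01, h10] at hdA
  have key : ∀ A1 B1 : SLR, A1.1 0 1 = 0 → A1.1 1 0 = 0 → 1 < |A1.1 0 0| →
      2 - (A1.1 0 0 - A1.1 1 1) ^ 2 * (B1.1 0 1 * B1.1 1 0) < -2 →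
      ∃ T : SLR, Nf (T * A1 * T⁻¹) (T * B1 * T⁻¹) := by
    intro A1 B1 k01 k10 kb kc
    have hqr : 0 < B1.1 0 1 * B1.1 1 0 := by
      by_contra hcon
      push Not at hcon
      nlinarith [mul_nonneg (sq_nonneg (A1.1 0 0 - A1.1 1 1)) (neg_nonneg.2 hcon)]
    have hq0 : B1.1 0 1 ≠ 0 := left_ne_zero_of_mul hqr.ne'
    have hrq : 0 < B1.1 1 0 / B1.1 0 1 := by
      have h1 : B1.1 1 0 / B1.1 0 1 = B1.1 0 1 * B1.1 1 0 / (B1.1 0 1) ^ 2 := by
        field_simp
      rw [h1]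
      exact div_pos hqr (by positivity)
    have hu : 0 < √(B1.1 1 0 / B1.1 0 1) := Real.sqrt_pos.2 hrq
    have hu2 : √(B1.1 1 0 / B1.1 0 1) ^ 2 = B1.1 1 0 / B1.1 0 1 := Real.sq_sqrt hrq.le
    generalize √(B1.1 1 0 / B1.1 0 1) = u at *
    have ht : 0 < √u := Real.sqrt_pos.2 hu
    have ht2 : √u ^ 2 = u := Real.sq_sqrt hu.le
    generalize √u = t at *
    have ht0 : t ≠ 0 := ht.ne'
    let T : SLR := mkS t 0 0 t⁻¹ (by rw [mul_inv_cancel₀ ht0]; ring)
    have e : ∀ M : SLR, T * M * T⁻¹ = mkS (M.1 0 0) (t ^ 2 * M.1 0 1) (M.1 1 0 / t ^ 2) (M.1 1 1)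
        (by field_simp; exact slr_det M) := by
      intro M
      rw [mul_inv_eq_iff_eq_mul]
      apply slr_ext
      · rw [mul00, mul00]
        simp only [T, mkS00, mkS01, mkS10]
        ring
      · rw [mul01, mul01]
        simp only [T, mkS00, mkS01, mkS11]
        field_simp
        ring
      · rw [mul10, mul10]
        simp only [T, mkS00, mkS10, mkS11]
        field_simp
        ring
      · rw [mul11, mul11]
        simp only [T, mkS01, mkS10, mkS11]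
        ring
    refine ⟨T, ?_⟩
    rw [e, e]
    refine ⟨?_, ?_, ?_, ?_, ?_⟩
    · rw [mkS01, k01, mul_zero]
    · rw [mkS10, k10, zero_div]
    · rw [mkS00]
      exact kb
    · rw [mkS01, mkS10, ht2]
      have h1 : B1.1 1 0 = u ^ 2 * B1.1 0 1 := by
        rw [hu2]
        field_simp
      rw [h1]
      field_simp
    · rw [mkS00, mkS11, mkS01, ht2]
      have h1 : (u * B1.1 0 1) ^ 2 = B1.1 0 1 * B1.1 1 0 := by
        rw [mul_pow, hu2]
        field_simp
      rw [h1]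
      linarith
  obtain ⟨T, hT⟩ := key _ _ h01 h10 hb hc
  refine ⟨T * g, ?_⟩
  have e : ∀ M : SLR, T * g * M * (T * g)⁻¹ = T * (g * M * g⁻¹) * T⁻¹ := fun M => by group
  rw [e, e]
  exact hT

theorem lin_bnd {a d u v C M e : ℝ} (he : 0 < e) (hae : e ≤ |a - d|) (ha : |a| ≤ M)
    (hd : |d| ≤ M) (h1 : |u + v| ≤ C) (h2 : |a * u + d * v| ≤ C) :
    |u| ≤ (C + M * C) / e ∧ |v| ≤ (C + M * C) / e := by
  have hM : 0 ≤ M := (abs_nonneg _).trans ha
  have e1 : (a - d) * u = (a * u + d * v) - d * (u + v) := by ring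
  have e2 : (a - d) * v = a * (u + v) - (a * u + d * v) := by ring
  have b1 : |(a - d) * u| ≤ C + M * C := by
    rw [e1]
    refine (abs_sub _ _).trans (add_le_add h2 ?_)
    rw [abs_mul]
    exact mul_le_mul hd h1 (abs_nonneg _) hM
  have b2 : |(a - d) * v| ≤ C + M * C := by
    rw [e2]
    refine (abs_sub _ _).trans ?_
    rw [add_comm]
    refine add_le_add h2 ?_
    rw [abs_mul]
    exact mul_le_mul ha h1 (abs_nonneg _) hM
  rw [abs_mul] at b1 b2
  constructor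
  · rw [le_div_iff₀ he, mul_comm]
    exact (mul_le_mul_of_nonneg_right hae (abs_nonneg u)).trans b1
  · rw [le_div_iff₀ he, mul_comm]
    exact (mul_le_mul_of_nonneg_right hae (abs_nonneg v)).trans b2

theorem nf_com {A B : SLR} (h : Nf A B) : (A * B * A⁻¹ * B⁻¹).1.trace < -2 := by
  rw [tr_com_diag h.a01 h.a10, ← h.sym]
  have := h.pos
  nlinarith

theorem nf_ad {A B : SLR} (h : Nf A B) : A.1 0 0 * A.1 1 1 = 1 := by
  have := slr_det A
  rwa [h.a01, zero_mul, sub_zero] at this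

theorem nf_d {A B : SLR} (h : Nf A B) : |A.1 1 1| < 1 := by
  have h1 := nf_ad h
  have h2 : |A.1 0 0| * |A.1 1 1| = 1 := by rw [← abs_mul, h1, abs_one]
  have h3 := h.big
  by_contra hc
  push Not at hc
  nlinarith

/-- BOUNDS for the entries of a pair in normal form and a third matrix -/
theorem bnd (C : ℝ) : ∃ K : ℝ, ∀ A B : SLR, Nf A B → |A.1.trace| ≤ C → |B.1.trace| ≤ C →
    |(A * B).1.trace| ≤ C → (∀ i j, |A.1 i j| ≤ K) ∧ (∀ i j, |B.1 i j| ≤ K) ∧
      ∀ D : SLR, |D.1.trace| ≤ C → |(A * D).1.trace| ≤ C → |(B * D).1.trace| ≤ C →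
        ∀ i j, |D.1 i j| ≤ K := by
  by_cases hC : 0 < C
  swap
  · refine ⟨0, fun A B h hA hB hAB => ?_⟩
    exact absurd (tr_large (nf_com h) hA hB hAB).2 hC
  set M := C + 1 with hM
  set e := 4 / C with he
  have he0 : 0 < e := div_pos (by norm_num) hC
  set K1 := (C + M * C) / e with hK1
  have hK10 : 0 ≤ K1 := by positivity
  set K2 := (C + 2 * (K1 * K1)) * C with hK2
  have hK20 : 0 ≤ K2 := by positivity
  set K := K2 ^ 2 + 2 * (K1 * K1 + 1) + 1 + K1 + M with hK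
  refine ⟨K, fun A B h hA hB hAB => ?_⟩
  obtain ⟨hl, -⟩ := tr_large (nf_com h) hA hB hAB
  have had := nf_ad h
  have hd1 := nf_d h
  have hdM : |A.1 1 1| ≤ M := by linarith
  have haM : |A.1 0 0| ≤ M := by
    have : A.1 0 0 = A.1.trace - A.1 1 1 := by rw [tr_eq]; ring
    rw [this]
    exact (abs_sub _ _).trans (add_le_add hA hd1.le)
  have hade : e ≤ |A.1 0 0 - A.1 1 1| := by
    rw [he, div_le_iff₀ hC]
    have h1 : (A.1 0 0 - A.1 1 1) ^ 2 = A.1.trace ^ 2 - 4 := by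
      rw [tr_eq]
      linear_combination (-4) * had
    rw [← h1] at hl
    have h2 : (4 : ℝ) ^ 2 ≤ (|A.1 0 0 - A.1 1 1| * C) ^ 2 := by
      rw [mul_pow, sq_abs]
      linarith
    exact (pow_le_pow_iff_left₀ (by norm_num) (by positivity) two_ne_zero).1 h2
  -- the diagonal entries
  have hdiag : ∀ D : SLR, |D.1.trace| ≤ C → |(A * D).1.trace| ≤ C →
      |D.1 0 0| ≤ K1 ∧ |D.1 1 1| ≤ K1 := by
    intro D h1 h2
    refine lin_bnd he0 hade haM hdM ?_ ?_
    · rwa [← tr_eq]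
    · rw [tr_mul', h.a01, h.a10] at h2
      have e1 : A.1 0 0 * D.1 0 0 + 0 * D.1 1 0 + 0 * D.1 0 1 + A.1 1 1 * D.1 1 1 =
          A.1 0 0 * D.1 0 0 + A.1 1 1 * D.1 1 1 := by ring
      rwa [e1] at h2
  have hprod : ∀ D : SLR, |D.1.trace| ≤ C → |(A * D).1.trace| ≤ C →
      |D.1 0 0 * D.1 1 1| ≤ K1 * K1 := by
    intro D h1 h2
    rw [abs_mul]
    exact mul_le_mul (hdiag D h1 h2).1 (hdiag D h1 h2).2 (abs_nonneg _) hK10
  -- the off-diagonal entry of `B`
  have hq2 : B.1 0 1 ^ 2 = B.1 0 0 * B.1 1 1 - 1 := by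
    have := slr_det B
    rw [← h.sym] at this
    linarith
  have hqle : B.1 0 1 ^ 2 ≤ K1 * K1 := by
    rw [hq2]
    linarith [le_abs_self (B.1 0 0 * B.1 1 1), hprod B hB hAB]
  have hqge : 4 < C ^ 2 * B.1 0 1 ^ 2 := by
    have h1 : (A.1 0 0 - A.1 1 1) ^ 2 ≤ C ^ 2 := by
      have h2 : (A.1 0 0 - A.1 1 1) ^ 2 = A.1.trace ^ 2 - 4 := by
        rw [tr_eq]
        linear_combination (-4) * had
      rw [h2]
      have h3 : A.1.trace ^ 2 ≤ C ^ 2 := by
        rw [← sq_abs]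
        exact pow_le_pow_left₀ (abs_nonneg _) hA 2
      linarith
    exact h.pos.trans_le (mul_le_mul_of_nonneg_right h1 (sq_nonneg _))
  have hKbig : ∀ z : ℝ, z ^ 2 ≤ K2 ^ 2 + 2 * (K1 * K1 + 1) → |z| ≤ K := by
    intro z hz
    have h1 : |z| ≤ z ^ 2 + 1 := by
      rw [← sq_abs]
      nlinarith [sq_nonneg (|z| - 1), abs_nonneg z]
    have : 0 ≤ M := by linarith
    linarith
  have hK1K : K1 ≤ K := by
    have : 0 ≤ M := by linarith
    have : 0 ≤ K1 * K1 := mul_nonneg hK10 hK10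
    linarith [sq_nonneg K2]
  have hMK : M ≤ K := by
    have : 0 ≤ K1 * K1 := mul_nonneg hK10 hK10
    linarith [sq_nonneg K2]
  refine ⟨?_, ?_, ?_⟩
  · intro i j
    fin_cases i <;> fin_cases j
    · exact haM.trans hMK
    · change |A.1 0 1| ≤ K
      rw [h.a01, abs_zero]
      linarith
    · change |A.1 1 0| ≤ K
      rw [h.a10, abs_zero]
      linarith
    · exact hdM.trans hMK
  · have hq : |B.1 0 1| ≤ K := by
      refine hKbig _ ?_
      linarith [sq_nonneg K2, mul_nonneg hK10 hK10]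
    intro i j
    fin_cases i <;> fin_cases j
    · exact (hdiag B hB hAB).1.trans hK1K
    · exact hq
    · change |B.1 1 0| ≤ K
      rw [← h.sym]
      exact hq
    · exact (hdiag B hB hAB).2.trans hK1K
  · intro D hD hAD hBD
    obtain ⟨hp, hs⟩ := hdiag D hD hAD
    have hps := hprod D hD hAD
    have hBs := hdiag B hB hAB
    rw [tr_mul', ← h.sym] at hBD
    -- the sum of the off-diagonal entries
    have h1 : |B.1 0 1| * |D.1 0 1 + D.1 1 0| ≤ C + 2 * (K1 * K1) := by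
      rw [← abs_mul]
      have e1 : B.1 0 1 * (D.1 0 1 + D.1 1 0) =
          (B.1 0 0 * D.1 0 0 + B.1 0 1 * D.1 1 0 + B.1 0 1 * D.1 0 1 + B.1 1 1 * D.1 1 1) -
            B.1 0 0 * D.1 0 0 - B.1 1 1 * D.1 1 1 := by ring
      rw [e1]
      have h2 : |B.1 0 0 * D.1 0 0| ≤ K1 * K1 := by
        rw [abs_mul]
        exact mul_le_mul hBs.1 hp (abs_nonneg _) hK10
      have h3 : |B.1 1 1 * D.1 1 1| ≤ K1 * K1 := by
        rw [abs_mul]
        exact mul_le_mul hBs.2 hs (abs_nonneg _) hK10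
      refine (abs_sub _ _).trans ?_
      refine (add_le_add_left (abs_sub _ _) _).trans ?_
      linarith
    have h2 : |D.1 0 1 + D.1 1 0| ≤ K2 := by
      have h3 : 1 ≤ C * |B.1 0 1| := by
        have h4 : (1 : ℝ) ^ 2 ≤ (C * |B.1 0 1|) ^ 2 := by
          rw [mul_pow, sq_abs]
          linarith
        exact (pow_le_pow_iff_left₀ (by norm_num) (by positivity) two_ne_zero).1 h4
      calc |D.1 0 1 + D.1 1 0| = 1 * |D.1 0 1 + D.1 1 0| := (one_mul _).symm
        _ ≤ C * |B.1 0 1| * |D.1 0 1 + D.1 1 0| := mul_le_mul_of_nonneg_right h3 (abs_nonneg _)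
        _ = C * (|B.1 0 1| * |D.1 0 1 + D.1 1 0|) := by ring
        _ ≤ C * (C + 2 * (K1 * K1)) := mul_le_mul_of_nonneg_left h1 hC.le
        _ = K2 := by rw [hK2]; ring
    have h3 : (D.1 0 1 + D.1 1 0) ^ 2 ≤ K2 ^ 2 := by
      rw [← sq_abs]
      exact pow_le_pow_left₀ (abs_nonneg _) h2 2
    have h4 : D.1 0 1 ^ 2 + D.1 1 0 ^ 2 ≤ K2 ^ 2 + 2 * (K1 * K1 + 1) := by
      have h5 := slr_det D
      have h6 := neg_abs_le (D.1 0 0 * D.1 1 1)
      nlinarith
    intro i j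
    fin_cases i <;> fin_cases j
    · exact hp.trans hK1K
    · exact hKbig (D.1 0 1) (by linarith [sq_nonneg (D.1 1 0)])
    · exact hKbig (D.1 1 0) (by linarith [sq_nonneg (D.1 0 1)])
    · exact hs.trans hK1K

end Pool.Agent.ToN
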