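import Pool.Agent.Lib.MP_305fdd_al.To.N.Min

/-!
# MP_305fdd_al, torsion: the abstract end of Nielsen realisation, part 2: uniqueness of the minimum and
the extension of the minimal representation

`NRd.realise`: there is a representation in `M` which extends (modulo the centre) to `Λ`.
-/

set_option autoImplicit false

namespace Pool.Agent.ToN

open Matrix Filter Topology

/-- `PSL_2(ℝ)` -/
abbrev PSLR := SLR ⧸ Subgroup.center SLR

/-- equality up to the sign -/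
def PM (A B : SLR) : Prop := A.1 = B.1 ∨ A.1 = -B.1

theorem mk_eq_iff (A B : SLR) : (QuotientGroup.mk A : PSLR) = QuotientGroup.mk B ↔ PM A B := by
  rw [QuotientGroup.eq, Matrix.SpecialLinearGroup.mem_center_iff]
  constructor
  · rintro ⟨r, hr, hr'⟩
    rw [Fintype.card_fin] at hr
    have h1 : B.1 = A.1 * Matrix.scalar (Fin 2) r := by
      rw [hr']
      have : B = A * (A⁻¹ * B) := by group
      exact congrArg Subtype.val this
    have h2 : B.1 = r • A.1 := by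
      rw [h1]
      ext i j
      rw [Matrix.scalar_apply, Matrix.mul_diagonal, Matrix.smul_apply, smul_eq_mul, mul_comm]
    rcases sq_eq_one_iff.1 hr with h3 | h3
    · left
      rw [h2, h3, one_smul]
    · right
      rw [h2, h3, neg_one_smul, neg_neg]
  · intro h
    have h1 : (A⁻¹ * A).1 = 1 := by rw [inv_mul_cancel]; rfl
    rcases h with h | h
    · refine ⟨1, one_pow _, ?_⟩
      rw [map_one, mul1, ← h, ← mul1, h1]
    · refine ⟨-1, by rw [Fintype.card_fin]; norm_num, ?_⟩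
      have h2 : B.1 = -A.1 := by rw [h, neg_neg]
      have h3 : (A⁻¹ * B).1 = -1 := by
        rw [mul1, h2, Matrix.mul_neg, ← mul1, h1]
      rw [map_neg, map_one]
      exact h3.symm

theorem lin_uniq {a d u v u' v' : ℝ} (h : a - d ≠ 0) (h1 : u + v = u' + v')
    (h2 : a * u + d * v = a * u' + d * v') : u = u' ∧ v = v' := by
  have e1 : (a - d) * (u - u') = 0 := by linear_combination h2 - d * h1
  have e2 := (mul_eq_zero.1 e1).resolve_left h
  exact ⟨by linarith, by linarith⟩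

theorem nf_ne {A B : SLR} (h : Nf A B) : A.1 0 0 - A.1 1 1 ≠ 0 := by
  intro h0
  have := h.pos
  rw [h0] at this
  norm_num at this

theorem nf_q {A B : SLR} (h : Nf A B) : B.1 0 1 ≠ 0 := by
  intro h0
  have := h.pos
  rw [h0] at this
  norm_num at this

theorem nf_xyz {A B : SLR} (h : Nf A B) :
    0 < A.1.trace * B.1.trace * (A * B).1.trace := by
  have h1 := nf_com h
  rw [fricke] at h1
  nlinarith [sq_nonneg A.1.trace, sq_nonneg B.1.trace, sq_nonneg (A * B).1.trace]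

/-- the orientation -/
def Ori (A B : SLR) : Prop := 0 < A.1.trace * B.1.trace * ((A * B).1 1 0 - (B * A).1 1 0)

theorem twist {A B A' B' : SLR} (h : Nf A B) (h' : Nf A' B') (ho : Ori A B) (ho' : Ori A' B')
    {α β : ℝ} (hα : α = 1 ∨ α = -1) (hβ : β = 1 ∨ β = -1) (hA : A.1.trace = α * A'.1.trace)
    (hB : B.1.trace = β * B'.1.trace) (hAB : (A * B).1.trace = α * β * (A' * B').1.trace) :
    A.1 0 0 = α * A'.1 0 0 ∧ A.1 1 1 = α * A'.1 1 1 ∧ B.1 0 0 = β * B'.1 0 0 ∧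
      B.1 1 1 = β * B'.1 1 1 ∧ B.1 0 1 = β * B'.1 0 1 := by
  have hα2 : α * α = 1 := by rcases hα with h | h <;> rw [h] <;> norm_num
  have hβ2 : β * β = 1 := by rcases hβ with h | h <;> rw [h] <;> norm_num
  have hαa : |α| = 1 := by rcases hα with h | h <;> rw [h] <;> norm_num
  have had := nf_ad h
  have had' := nf_ad h'
  have hd := nf_d h
  have hd' := nf_d h'
  have hb := h.big
  have hb' := h'.big
  have hne := nf_ne h
  have hq := nf_q h
  have hA1 := hA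
  rw [tr_eq, tr_eq] at hA1
  have ha : A.1 0 0 = α * A'.1 0 0 := by
    have e1 : (A.1 0 0 - α * A'.1 0 0) * (A.1 0 0 - α * A'.1 1 1) = 0 := by
      linear_combination (A.1 0 0) * hA1 - had + α * α * had' + hα2
    rcases mul_eq_zero.1 e1 with e2 | e2
    · linarith
    · exfalso
      have e3 : |A.1 0 0| = |A'.1 1 1| := by
        have : A.1 0 0 = α * A'.1 1 1 := by linarith
        rw [this, abs_mul, hαa, one_mul]
      rw [e3] at hb
      linarith
  have hdd : A.1 1 1 = α * A'.1 1 1 := by linarith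
  have hB1 := hB
  rw [tr_eq, tr_eq] at hB1
  have hAB1 := hAB
  rw [tr_mul', tr_mul', h.a01, h.a10, h'.a01, h'.a10] at hAB1
  obtain ⟨hp, hs⟩ := lin_uniq (u := B.1 0 0) (v := B.1 1 1) (u' := β * B'.1 0 0)
    (v' := β * B'.1 1 1) hne (by linarith) (by rw [ha, hdd] at hAB1 ⊢; linarith)
  refine ⟨ha, hdd, hp, hs, ?_⟩
  have hdet := slr_det B
  have hdet' := slr_det B'
  rw [← h.sym] at hdet
  rw [← h'.sym] at hdet'
  have e1 : (B.1 0 1 - β * B'.1 0 1) * (B.1 0 1 + β * B'.1 0 1) = 0 := by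
    rw [hp, hs] at hdet
    linear_combination (-1) * hdet + β * β * hdet' + (1 : ℝ) * hβ2
  rcases mul_eq_zero.1 e1 with e2 | e2
  · linarith
  · exfalso
    have e3 : B.1 0 1 = -(β * B'.1 0 1) := by linarith
    unfold Ori at ho ho'
    rw [mul10, mul10, h.a10, ← h.sym] at ho
    rw [mul10, mul10, h'.a10, ← h'.sym] at ho'
    have e4 : A.1.trace * B.1.trace * (0 * B.1 0 0 + A.1 1 1 * B.1 0 1 -
        (B.1 0 1 * A.1 0 0 + B.1 1 1 * 0)) = -(α * α * (β * β) * (A'.1.trace * B'.1.trace *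
        (0 * B'.1 0 0 + A'.1 1 1 * B'.1 0 1 - (B'.1 0 1 * A'.1 0 0 + B'.1 1 1 * 0)))) := by
      rw [hA, hB, ha, hdd, e3]
      ring
    rw [e4, hα2, hβ2] at ho
    linarith

theorem twist_third {A B A' B' : SLR} (h : Nf A B) (h' : Nf A' B')
    {α β δ : ℝ} (hα2 : α * α = 1) (hβ2 : β * β = 1)
    (ha : A.1 0 0 = α * A'.1 0 0) (hd : A.1 1 1 = α * A'.1 1 1)
    (hp : B.1 0 0 = β * B'.1 0 0) (hs : B.1 1 1 = β * B'.1 1 1) (hq : B.1 0 1 = β * B'.1 0 1)
    {D D' : SLR} (h1 : D.1.trace = δ * D'.1.trace) (h2 : (A * D).1.trace = α * δ * (A' * D').1.trace)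
    (h3 : (B * D).1.trace = β * δ * (B' * D').1.trace)
    (h4 : (A * B * D).1.trace = α * β * δ * (A' * B' * D').1.trace) :
    ∀ i j, D.1 i j = δ * D'.1 i j := by
  have hne := nf_ne h
  have hq0 := nf_q h
  rw [tr_eq, tr_eq] at h1
  rw [tr_mul', tr_mul', h.a01, h.a10, h'.a01, h'.a10] at h2
  rw [tr_mul', tr_mul', ← h.sym, ← h'.sym] at h3
  rw [tr_mul', tr_mul', mul00, mul01, mul10, mul11, mul00, mul01, mul10, mul11, h.a01, h.a10,
    h'.a01, h'.a10, ← h.sym, ← h'.sym] at h4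
  have ha' : A'.1 0 0 = α * A.1 0 0 := by rw [ha, ← mul_assoc, hα2, one_mul]
  have hd' : A'.1 1 1 = α * A.1 1 1 := by rw [hd, ← mul_assoc, hα2, one_mul]
  have hp' : B'.1 0 0 = β * B.1 0 0 := by rw [hp, ← mul_assoc, hβ2, one_mul]
  have hs' : B'.1 1 1 = β * B.1 1 1 := by rw [hs, ← mul_assoc, hβ2, one_mul]
  have hq' : B'.1 0 1 = β * B.1 0 1 := by rw [hq, ← mul_assoc, hβ2, one_mul]
  rw [ha', hd'] at h2
  rw [hp', hs', hq'] at h3
  rw [ha', hd', hp', hs', hq'] at h4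
  obtain ⟨g1, g2⟩ := lin_uniq (u := D.1 0 0) (v := D.1 1 1) (u' := δ * D'.1 0 0)
    (v' := δ * D'.1 1 1) hne (by linarith) (by linear_combination h2 + (δ * (A.1 0 0 * D'.1 0 0 +
      A.1 1 1 * D'.1 1 1)) * hα2)
  have e1 : B.1 0 1 * ((D.1 1 0 + D.1 0 1) - (δ * D'.1 1 0 + δ * D'.1 0 1)) = 0 := by
    rw [g1, g2] at h3
    linear_combination h3 + (δ * (B.1 0 0 * D'.1 0 0 + B.1 0 1 * D'.1 1 0 + B.1 0 1 * D'.1 0 1 +
      B.1 1 1 * D'.1 1 1)) * hβ2
  have e2 := (mul_eq_zero.1 e1).resolve_left hq0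
  have e3 : B.1 0 1 * ((A.1 0 0 * D.1 1 0 + A.1 1 1 * D.1 0 1) -
      (A.1 0 0 * (δ * D'.1 1 0) + A.1 1 1 * (δ * D'.1 0 1))) = 0 := by
    rw [g1, g2] at h4
    have e5 : α * α * (β * β) = 1 := by rw [hα2, hβ2, one_mul]
    linear_combination h4 + (δ * (A.1 0 0 * B.1 0 0 * D'.1 0 0 + A.1 0 0 * B.1 0 1 * D'.1 1 0 +
      A.1 1 1 * B.1 0 1 * D'.1 0 1 + A.1 1 1 * B.1 1 1 * D'.1 1 1)) * e5
  have e4 := (mul_eq_zero.1 e3).resolve_left hq0
  obtain ⟨g3, g4⟩ := lin_uniq (u := D.1 1 0) (v := D.1 0 1) (u' := δ * D'.1 1 0)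
    (v' := δ * D'.1 0 1) hne (by linarith) (by linarith)
  intro i j
  fin_cases i <;> fin_cases j
  · exact g1
  · exact g4
  · exact g3
  · exact g2

/-- the projection to `PSL_2(ℝ)` -/
def pr : SLR →* PSLR := QuotientGroup.mk' _

theorem pr_eq_iff (A B : SLR) : pr A = pr B ↔ PM A B := mk_eq_iff A B

theorem pm_of_smul {A B : SLR} {δ : ℝ} (hδ : δ = 1 ∨ δ = -1) (h : ∀ i j, A.1 i j = δ * B.1 i j) :
    PM A B := by
  rcases hδ with h1 | h1
  · left
    ext i j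
    rw [h, h1, one_mul]
  · right
    ext i j
    rw [h, h1, Matrix.neg_apply]
    ring

theorem abs_sg {u : ℤˣ} {x y : ℝ} (h : |x| = |y|) (h0 : 0 ≤ sg u * x * y) : x = sg u * y := by
  rcases sg_cases u with h1 | h1 <;> rw [h1] at h0 ⊢
  · rcases abs_eq_abs.1 h with h2 | h2
    · rw [h2, one_mul]
    · rw [h2] at h0 ⊢
      have : y = 0 := by nlinarith [sq_nonneg y]
      rw [this]
      norm_num
  · rcases abs_eq_abs.1 h with h2 | h2
    · rw [h2] at h0 ⊢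
      have : y = 0 := by nlinarith [sq_nonneg y]
      rw [this]
      norm_num
    · rw [h2]
      ring

section

variable {Λ : Type} [Group Λ] {N : Subgroup Λ} [N.Normal] {M : Set (N →* SLR)} {a b : N}

/-- equality of the traces up to the sign on the finite set implies that the representations are
conjugate -/
theorem NRd.conj_of_tr (h : NRd N M a b) (G : Finset N) (hG : Subgroup.closure (G : Set N) = ⊤)
    {ρ₁ ρ₂ : N →* SLR} (h1 : ρ₁ ∈ M) (h2 : ρ₂ ∈ M)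
    (ht : ∀ s ∈ SS a b G, |(ρ₁ s).1.trace| = |(ρ₂ s).1.trace|) :
    ∃ g : PSLR, ∀ x, pr (ρ₁ x) = g * pr (ρ₂ x) * g⁻¹ := by
  classical
  have hS' : SS a b G = {a, b, a * b} ∪ G ∪ G.image (a * ·) ∪ G.image (b * ·) ∪
      G.image (a * b * ·) := rfl
  rw [hS'] at ht
  obtain ⟨χ, hχ⟩ := h.sgn ρ₁ h1 ρ₂ h2
  have ht' : ∀ s ∈ ({a, b, a * b} ∪ G ∪ G.image (a * ·) ∪ G.image (b * ·) ∪
      G.image (a * b * ·) : Finset N), (ρ₁ s).1.trace = sg (χ s) * (ρ₂ s).1.trace :=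
    fun s hs => abs_sg (ht s hs) (hχ s)
  obtain ⟨g₁, hg₁⟩ := com_nf (h.com ρ₁ h1)
  obtain ⟨g₂, hg₂⟩ := com_nf (h.com ρ₂ h2)
  let r₁ : N →* SLR := (MulAut.conj g₁).toMonoidHom.comp ρ₁
  let r₂ : N →* SLR := (MulAut.conj g₂).toMonoidHom.comp ρ₂
  have e₁ : ∀ x, r₁ x = g₁ * ρ₁ x * g₁⁻¹ := fun x => rfl
  have e₂ : ∀ x, r₂ x = g₂ * ρ₂ x * g₂⁻¹ := fun x => rfl
  have hr₁ : r₁ ∈ M := h.conj _ h1 _
  have hr₂ : r₂ ∈ M := h.conj _ h2 _
  have t₁ : ∀ x, (r₁ x).1.trace = (ρ₁ x).1.trace := fun x => by rw [e₁, tr_conj']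
  have t₂ : ∀ x, (r₂ x).1.trace = (ρ₂ x).1.trace := fun x => by rw [e₂, tr_conj']
  have hα := sg_cases (χ a)
  have hβ := sg_cases (χ b)
  have hα2 : sg (χ a) * sg (χ a) = 1 := by rcases hα with h | h <;> rw [h] <;> norm_num
  have hβ2 : sg (χ b) * sg (χ b) = 1 := by rcases hβ with h | h <;> rw [h] <;> norm_num
  obtain ⟨k1, k2, k3, k4, k5⟩ := twist (A := r₁ a) (B := r₁ b) (A' := r₂ a) (B' := r₂ b) hg₁ hg₂
    (h.ori r₁ hr₁) (h.ori r₂ hr₂) hα hβ (by rw [t₁, t₂]; exact ht' a (by simp))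
    (by rw [t₁, t₂]; exact ht' b (by simp))
    (by rw [← map_mul, ← map_mul, t₁, t₂, ← sg_mul, ← map_mul]; exact ht' _ (by simp))
  have key : ∀ s ∈ G, pr (r₁ s) = pr (r₂ s) := by
    intro s hs
    rw [pr_eq_iff]
    refine pm_of_smul (sg_cases (χ s)) (twist_third (A := r₁ a) (B := r₁ b) (A' := r₂ a)
      (B' := r₂ b) hg₁ hg₂ hα2 hβ2 k1 k2 k3 k4 k5 ?_ ?_ ?_ ?_)
    · rw [t₁, t₂]
      exact ht' s (by simp [hs])
    · rw [← map_mul, ← map_mul, t₁, t₂, ← sg_mul, ← map_mul]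
      exact ht' _ (by simp [hs])
    · rw [← map_mul, ← map_mul, t₁, t₂, ← sg_mul, ← map_mul]
      exact ht' _ (by simp [hs])
    · rw [← map_mul, ← map_mul, ← map_mul, ← map_mul, t₁, t₂, ← sg_mul, ← sg_mul, ← map_mul,
        ← map_mul]
      exact ht' _ (Finset.mem_union_right _ (Finset.mem_image_of_mem _ hs))
  have hall : pr.comp r₁ = pr.comp r₂ := by
    refine MonoidHom.eq_of_eqOn_dense hG fun s hs => ?_
    exact key s hs
  refine ⟨(pr g₁)⁻¹ * pr g₂, fun x => ?_⟩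
  have h3 : pr (r₁ x) = pr (r₂ x) := DFunLike.congr_fun hall x
  rw [e₁, e₂, map_mul, map_mul, map_mul, map_mul, map_inv, map_inv] at h3
  have h4 : pr (ρ₁ x) = (pr g₁)⁻¹ * (pr g₁ * pr (ρ₁ x) * (pr g₁)⁻¹) * pr g₁ := by group
  rw [h4, h3]
  group

/-- UNIQUENESS OF THE MINIMUM -/
theorem NRd.uniq (h : NRd N M a b) [Fintype (Λ ⧸ N)] (G : Finset N)
    (hG : Subgroup.closure (G : Set N) = ⊤) {ρ₁ ρ₂ : N →* SLR} (h1 : ρ₁ ∈ M) (h2 : ρ₂ ∈ M)
    (m1 : ∀ r' ∈ M, En (SS a b G) ρ₁ ≤ En (SS a b G) r')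
    (m2 : ∀ r' ∈ M, En (SS a b G) ρ₂ ≤ En (SS a b G) r') :
    ∃ g : PSLR, ∀ x, pr (ρ₁ x) = g * pr (ρ₂ x) * g⁻¹ := by
  refine h.conj_of_tr G hG h1 h2 fun s hs => ?_
  obtain ⟨r, hr, hrt⟩ := h.mid ρ₁ h1 ρ₂ h2
  have hE : En (SS a b G) ρ₁ = En (SS a b G) ρ₂ := le_antisymm (m1 _ h2) (m2 _ h1)
  have hle : ∀ x : N, |(r x).1.trace| ≤ (|(ρ₁ x).1.trace| + |(ρ₂ x).1.trace|) / 2 := by
    intro x
    have h3 := hrt x
    rw [← sq_abs] at h3
    refine abs_le_of_sq_le_sq' ?_ (by positivity) |>.2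
    nlinarith [sq_nonneg (|(ρ₁ x).1.trace| - |(ρ₂ x).1.trace|)]
  have hsum : ∑ q : Λ ⧸ N, ∑ s ∈ SS a b G, |(r (MulAut.conjNormal q.out s)).1.trace| =
      ∑ q : Λ ⧸ N, ∑ s ∈ SS a b G, (|(ρ₁ (MulAut.conjNormal q.out s)).1.trace| +
        |(ρ₂ (MulAut.conjNormal q.out s)).1.trace|) / 2 := by
    apply le_antisymm
    · exact Finset.sum_le_sum fun q _ => Finset.sum_le_sum fun s _ => hle _
    · have h3 : ∑ q : Λ ⧸ N, ∑ s ∈ SS a b G, (|(ρ₁ (MulAut.conjNormal q.out s)).1.trace| +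
          |(ρ₂ (MulAut.conjNormal q.out s)).1.trace|) / 2 =
          (En (SS a b G) ρ₁ + En (SS a b G) ρ₂) / 2 := by
        unfold En
        simp only [← Finset.sum_div, Finset.sum_add_distrib]
      rw [h3, ← hE]
      have h4 := m1 r hr
      unfold En at h4 ⊢
      linarith
  have h5 := (Finset.sum_eq_sum_iff_of_le (fun q _ => Finset.sum_le_sum fun s _ => hle _)).1 hsum
    (((1 : Λ) : Λ ⧸ N)) (Finset.mem_univ _)
  have h6 := (Finset.sum_eq_sum_iff_of_le (fun s _ => hle _)).1 h5 s hs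
  have h7 : ∀ ρ : N →* SLR, (ρ (MulAut.conjNormal ((1 : Λ) : Λ ⧸ N).out s)).1.trace =
      (ρ s).1.trace := by
    intro ρ
    have h8 := tr_coset ρ (l := ((1 : Λ) : Λ ⧸ N).out) (l' := 1) (QuotientGroup.out_eq' _) s
    rw [h8, map_one]
    rfl
  rw [h7, h7, h7] at h6
  have h8 := hrt s
  rw [← sq_abs, h6] at h8
  have h9 : (|(ρ₁ s).1.trace| - |(ρ₂ s).1.trace|) ^ 2 ≤ 0 := by nlinarith
  have h10 := pow_eq_zero_iff (two_ne_zero) |>.1 (le_antisymm h9 (sq_nonneg _))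
  linarith

/-- the centraliser of the image is trivial -/
theorem NRd.cent (h : NRd N M a b) {ρ : N →* SLR} (hρ : ρ ∈ M) (g : PSLR)
    (hg : ∀ x, g * pr (ρ x) * g⁻¹ = pr (ρ x)) : g = 1 := by
  obtain ⟨u, hu⟩ := com_nf (h.com ρ hρ)
  obtain ⟨k, hk⟩ := QuotientGroup.mk'_surjective (Subgroup.center SLR) (pr u * g * (pr u)⁻¹)
  change pr k = pr u * g * (pr u)⁻¹ at hk
  have h1 : ∀ x, PM (k * (u * ρ x * u⁻¹) * k⁻¹) (u * ρ x * u⁻¹) := by
    intro x
    rw [← pr_eq_iff]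
    rw [map_mul, map_mul, map_mul, map_mul, map_inv, map_inv, hk]
    have h2 : pr u * g * (pr u)⁻¹ * (pr u * pr (ρ x) * (pr u)⁻¹) * (pr u * g * (pr u)⁻¹)⁻¹ =
        pr u * (g * pr (ρ x) * g⁻¹) * (pr u)⁻¹ := by group
    rw [h2, hg]
  have h2 : ∀ x, (u * ρ x * u⁻¹).1.trace ≠ 0 → k * (u * ρ x * u⁻¹) = (u * ρ x * u⁻¹) * k := by
    intro x hx
    rcases h1 x with h3 | h3
    · exact mul_inv_eq_iff_eq_mul.1 (Subtype.ext h3)
    · exfalso
      have h4 := tr_conj' k (u * ρ x * u⁻¹)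
      rw [h3, Matrix.trace_neg] at h4
      apply hx
      linarith
  have hxyz := nf_xyz hu
  have hA := h2 a (left_ne_zero_of_mul (left_ne_zero_of_mul hxyz.ne'))
  have hB := h2 b (right_ne_zero_of_mul (left_ne_zero_of_mul hxyz.ne'))
  have hne := nf_ne hu
  have hq := nf_q hu
  have u01 := hu.a01
  have u10 := hu.a10
  clear hxyz h1 h2 hu
  generalize u * ρ a * u⁻¹ = A at *
  generalize u * ρ b * u⁻¹ = B at *
  have k01 : k.1 0 1 = 0 := by
    have h3 : (k * A).1 0 1 = (A * k).1 0 1 := by rw [hA]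
    rw [mul01, mul01, u01] at h3
    have h4 : (A.1 0 0 - A.1 1 1) * k.1 0 1 = 0 := by linarith
    exact (mul_eq_zero.1 h4).resolve_left hne
  have k10 : k.1 1 0 = 0 := by
    have h3 : (k * A).1 1 0 = (A * k).1 1 0 := by rw [hA]
    rw [mul10, mul10, u10] at h3
    have h4 : (A.1 0 0 - A.1 1 1) * k.1 1 0 = 0 := by linarith
    exact (mul_eq_zero.1 h4).resolve_left hne
  have k00 : k.1 0 0 = k.1 1 1 := by
    have h3 : (k * B).1 0 1 = (B * k).1 0 1 := by rw [hB]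
    rw [mul01, mul01, k01] at h3
    have h4 : B.1 0 1 * (k.1 0 0 - k.1 1 1) = 0 := by linarith
    have h5 := (mul_eq_zero.1 h4).resolve_left hq
    linarith
  have kd := slr_det k
  rw [k01, zero_mul, sub_zero, ← k00] at kd
  have hk1 : pr k = pr 1 := by
    rw [pr_eq_iff]
    have h5 : k.1 0 0 = 1 ∨ k.1 0 0 = -1 := by
      have : (k.1 0 0 - 1) * (k.1 0 0 + 1) = 0 := by linarith
      rcases mul_eq_zero.1 this with h | h
      · left; linarith
      · right; linarith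
    refine pm_of_smul h5 fun i j => ?_
    rw [one1]
    fin_cases i <;> fin_cases j
    · simp
    · simpa using k01
    · simpa using k10
    · simpa using k00.symm
  rw [hk1, map_one] at hk
  have h6 : g = (pr u)⁻¹ * (pr u * g * (pr u)⁻¹) * pr u := by group
  rw [h6, ← hk]
  group

end

/-- extension of a homomorphism of a normal subgroup -/
theorem ext_hom {Λ G : Type} [Group Λ] [Group G] {N : Subgroup Λ} [N.Normal] (P : N →* G)
    (hc : ∀ g, (∀ x, g * P x * g⁻¹ = P x) → g = 1)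
    (h : ∀ l : Λ, ∃ g : G, ∀ x, P (MulAut.conjNormal l x) = g * P x * g⁻¹) :
    ∃ R : Λ →* G, ∀ x : N, R x = P x := by
  choose g hg using h
  have huniq : ∀ u v : G, (∀ x, u * P x * u⁻¹ = v * P x * v⁻¹) → u = v := by
    intro u v huv
    have h1 := hc (v⁻¹ * u) fun x => by
      have h2 : v⁻¹ * u * P x * (v⁻¹ * u)⁻¹ = v⁻¹ * (u * P x * u⁻¹) * v := by group
      rw [h2, huv]
      group
    rw [inv_mul_eq_one] at h1
    exact h1.symm
  refine ⟨MonoidHom.mk' g fun l l' => ?_, fun n => ?_⟩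
  · apply huniq
    intro x
    rw [← hg, map_mul, MulAut.mul_apply, hg, hg]
    group
  · change g n = P n
    apply huniq
    intro x
    rw [← hg]
    have h1 : (MulAut.conjNormal (n : Λ)) x = n * x * n⁻¹ := by
      apply Subtype.ext
      rw [MulAut.conjNormal_apply]
      rfl
    rw [h1, map_mul, map_mul, map_inv]

/-- NIELSEN REALISATION, abstract form: there is a representation in `M` which extends to `Λ` (modulo the
centre). -/
theorem NRd.realise {Λ : Type} [Group Λ] {N : Subgroup Λ} [N.Normal] [N.FiniteIndex]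
    {M : Set (N →* SLR)} {a b : N} (h : NRd N M a b) (hfg : Group.FG N) :
    ∃ ρ ∈ M, ∃ R : Λ →* PSLR, ∀ x : N, R x = pr (ρ x) := by
  have : Fintype (Λ ⧸ N) := Fintype.ofFinite _
  obtain ⟨G, hG⟩ := Group.fg_def.1 hfg
  obtain ⟨ρ, hρ, hmin⟩ := h.exists_min G hG
  obtain ⟨R, hR⟩ := ext_hom (pr.comp ρ) (fun g hg => h.cent hρ g hg) fun l => by
    obtain ⟨g, hg⟩ := h.uniq G hG (h.inv ρ hρ l) hρ (fun r' hr' => by
      rw [En_inv]
      exact hmin r' hr') hmin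
    exact ⟨g, hg⟩
  exact ⟨ρ, hρ, R, hR⟩

end Pool.Agent.ToN
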